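import Mathlib

/-!
Linear algebra for the Skolem problem of a fixed reversible recurrence: minors, exchange of rows,
real forms, hyperplanes of lattices.
-/

set_option autoImplicit false

namespace Pool.Agent.TH717.SK

open Matrix

/-- a matrix with trivial kernel has a nonzero maximal minor -/
theorem exists_minor {F : Type*} [Field F] {ι : Type*} [Fintype ι] {m : ℕ}
    (N : Matrix ι (Fin m) F) (h : ∀ y : Fin m → F, N *ᵥ y = 0 → y = 0) :
    ∃ s : Fin m → ι, (N.submatrix s id).det ≠ 0 := by
  classical
  have h1 : N.rank = m := by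
    unfold Matrix.rank
    rw [LinearMap.finrank_range_of_inj]
    · simp
    · rw [injective_iff_map_eq_zero]
      exact fun y hy => h y hy
  have h2 : Module.finrank F (Submodule.span F (Set.range N.row)) = m := by
    rw [← Matrix.rank_eq_finrank_span_row, h1]
  obtain ⟨f, hf, hsp, hli⟩ := Submodule.exists_fun_fin_finrank_span_eq F (Set.range N.row)
  choose s hs using hf
  refine ⟨s ∘ Fin.cast h2.symm, ?_⟩
  have h3 : LinearIndependent F ((N.submatrix (s ∘ Fin.cast h2.symm) id).row) := by
    have h4 : (N.submatrix (s ∘ Fin.cast h2.symm) id).row = f ∘ Fin.cast h2.symm := by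
      funext i
      exact hs (Fin.cast h2.symm i)
    rw [h4]
    exact hli.comp _ (Fin.cast_injective _)
  have h5 := Matrix.linearIndependent_rows_iff_isUnit.1 h3
  rw [Matrix.isUnit_iff_isUnit_det] at h5
  exact h5.ne_zero

/-- exchange of rows (Cramer's rule) -/
theorem cramer_rows {R : Type*} [CommRing R] {ι : Type*} {m : ℕ}
    (N : Matrix ι (Fin m) R) (s : Fin m → ι) (l : ι) (k : Fin m) :
    (N.submatrix s id).det * N l k =
      ∑ j, (N.submatrix (Function.update s j l) id).det * N (s j) k := by
  have h := congrFun (Matrix.mulVec_cramer (N.submatrix s id)ᵀ (N l)) k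
  rw [Matrix.det_transpose, Pi.smul_apply, smul_eq_mul] at h
  rw [← h]
  simp only [Matrix.mulVec, dotProduct, Matrix.transpose_apply, Matrix.submatrix_apply, id]
  refine Finset.sum_congr rfl fun j _ => ?_
  rw [Matrix.cramer_transpose_apply, mul_comm]
  congr 2
  ext a b
  by_cases h : a = j
  · subst h
    simp
  · rw [Matrix.updateRow_ne h]
    simp [Function.update_of_ne h]

/-- real forms -/
theorem real_rows {R : Type*} [CommRing R] [IsDomain R] (cj : R → R) (iR : R) (hi : iR ≠ 0)
    (h2 : (2 : R) ≠ 0) {m : ℕ} (N : Matrix (Fin m) (Fin m) R) (h : N.det ≠ 0) :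
    ∃ S : Finset (Fin m), (Matrix.of fun k j => if k ∈ S then N k j + cj (N k j) else
      iR * (N k j - cj (N k j))).det ≠ 0 := by
  classical
  set P : Matrix (Fin m) (Fin m) R := Matrix.of fun k j => N k j + cj (N k j) with hP
  set Q : Matrix (Fin m) (Fin m) R := Matrix.of fun k j => N k j - cj (N k j) with hQ
  have h3 : (P + Q).det ≠ 0 := by
    have : P + Q = (2 : R) • N := by
      ext k j
      simp only [hP, hQ, Matrix.add_apply, Matrix.of_apply, Matrix.smul_apply, smul_eq_mul]
      ring
    rw [this, Matrix.det_smul]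
    exact mul_ne_zero (pow_ne_zero _ h2) h
  have h4 : (P + Q).det = ∑ S : Finset (Fin m), Matrix.det (S.piecewise P Q) :=
    (Matrix.detRowAlternating (n := Fin m) (R := R)).toMultilinearMap.map_add_univ P Q
  rw [h4] at h3
  obtain ⟨S, -, hS⟩ := Finset.exists_ne_zero_of_sum_ne_zero h3
  refine ⟨S, ?_⟩
  set Z : Matrix (Fin m) (Fin m) R := Matrix.of fun k j => if k ∈ S then P k j else Q k j with hZ
  have hS' : Z.det ≠ 0 := by
    have h6 : Matrix.det (S.piecewise P Q) = Z.det := by
      congr 1
      funext k j
      show (S.piecewise P Q) k j = if k ∈ S then P k j else Q k j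
      unfold Finset.piecewise
      split_ifs <;> rfl
    rwa [← h6]
  have h5 : (Matrix.of fun k j => if k ∈ S then N k j + cj (N k j) else
      iR * (N k j - cj (N k j))) = Matrix.of fun k j => (if k ∈ S then 1 else iR) * Z k j := by
    ext k j
    simp only [Matrix.of_apply, hZ]
    by_cases hk : k ∈ S
    · simp only [hk, if_true, one_mul, hP, Matrix.of_apply]
    · simp only [hk, if_false, hQ, Matrix.of_apply]
  rw [h5, Matrix.det_mul_column (fun k => if k ∈ S then (1 : R) else iR) Z]
  refine mul_ne_zero (Finset.prod_ne_zero_iff.2 fun k _ => ?_) hS'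
  split_ifs
  · exact one_ne_zero
  · exact hi

/-- the kernel of a nonzero functional has smaller rank -/
theorem finrank_ker_lt {d : ℕ} (T : Submodule ℤ (Fin d → ℤ)) (f : T →ₗ[ℤ] ℤ) (hf : f ≠ 0) :
    Module.finrank ℤ ((LinearMap.ker f).map T.subtype) < Module.finrank ℤ T := by
  have h1 : Module.finrank ℤ ((LinearMap.ker f).map T.subtype) =
      Module.finrank ℤ (LinearMap.ker f) :=
    (Submodule.equivMapOfInjective T.subtype T.injective_subtype _).finrank_eq.symm
  have h2 := Submodule.finrank_quotient_add_finrank (LinearMap.ker f)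
  have h3 : Module.finrank ℤ (T ⧸ LinearMap.ker f) = Module.finrank ℤ (LinearMap.range f) :=
    f.quotKerEquivRange.finrank_eq
  have h4 : 0 < Module.finrank ℤ (LinearMap.range f) := by
    rw [Module.finrank_pos_iff]
    rw [Submodule.nontrivial_iff_ne_bot]
    intro h
    exact hf (LinearMap.range_eq_bot.1 h)
  omega

/-- integral vectors independent over the integers are independent over every field of
characteristic zero -/
theorem ker_cast {F : Type*} [Field F] [CharZero F] {d m : ℕ} (V : Fin d → Fin m → ℤ)
    (h : ∀ y : Fin m → ℤ, (∀ k, ∑ j, V k j * y j = 0) → y = 0) (y : Fin m → F)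
    (hy : ∀ k, ∑ j, (V k j : F) * y j = 0) : y = 0 := by
  classical
  -- over the rationals
  have hQ : ∀ y : Fin m → ℚ, (Matrix.of fun k j => (V k j : ℚ)) *ᵥ y = 0 → y = 0 := by
    intro y hy
    obtain ⟨b, hb⟩ := IsLocalization.exist_integer_multiples_of_finset (nonZeroDivisors ℤ)
      (Finset.univ.image y)
    choose! z hz using fun j => hb (y j) (Finset.mem_image_of_mem _ (Finset.mem_univ j))
    have hz' : ∀ j, (z j : ℚ) = (b : ℤ) * y j := by
      intro j
      have := hz j
      simpa using this
    have h1 : z = 0 := by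
      apply h
      intro k
      have h2 := congrFun hy k
      simp only [Matrix.mulVec, dotProduct, Matrix.of_apply, Pi.zero_apply] at h2
      have h3 : ((∑ j, V k j * z j : ℤ) : ℚ) = (b : ℤ) * ∑ j, (V k j : ℚ) * y j := by
        push_cast
        rw [Finset.mul_sum]
        refine Finset.sum_congr rfl fun j _ => ?_
        rw [hz' j]
        ring
      rw [h2, mul_zero] at h3
      exact_mod_cast h3
    funext j
    have h4 := hz' j
    rw [h1] at h4
    have h5 : ((b : ℤ) : ℚ) ≠ 0 := by
      exact_mod_cast nonZeroDivisors.ne_zero b.2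
    simp only [Pi.zero_apply, Int.cast_zero] at h4
    rcases mul_eq_zero.1 h4.symm with h6 | h6
    · exact absurd h6 h5
    · simpa using h6
  obtain ⟨s, hs⟩ := exists_minor _ hQ
  set W : Matrix (Fin m) (Fin m) ℤ := Matrix.of fun i j => V (s i) j with hW
  have h1 : ((Matrix.of fun k j => (V k j : ℚ)).submatrix s id) = W.map (Int.castRingHom ℚ) := by
    ext i j
    simp [hW]
  rw [h1, ← RingHom.mapMatrix_apply, ← RingHom.map_det] at hs
  have h2 : W.det ≠ 0 := by
    intro h0
    rw [h0, map_zero] at hs
    exact hs rfl
  have h3 : (W.map (Int.castRingHom F)).det ≠ 0 := by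
    rw [← RingHom.mapMatrix_apply, ← RingHom.map_det]
    simpa using h2
  apply Matrix.eq_zero_of_mulVec_eq_zero h3
  funext i
  simp only [Matrix.mulVec, dotProduct, Matrix.map_apply, hW, Matrix.of_apply, Pi.zero_apply]
  exact hy (s i)

/-- if rows can only be exchanged inside their classes, a relation between the rows splits
according to the classes -/
theorem exch {ι : Type} [Fintype ι] [DecidableEq ι] {F : Type} [Field F] {A : Type}
    [DecidableEq A] {m : ℕ} (N : Matrix ι (Fin m) F) (al : ι → A) (s : Fin m → ι)
    (hs : (N.submatrix s id).det ≠ 0)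
    (hex : ∀ j l, (N.submatrix (Function.update s j l) id).det ≠ 0 → al l = al (s j))
    (ε : ι → F) (hε : ∀ k, ∑ l, ε l * N l k = 0) (z : Fin m → F) (a : A) :
    ∑ l with al l = a, ε l * ∑ k, N l k * z k = 0 := by
  classical
  set D := (N.submatrix s id).det with hD
  set c : ι → Fin m → F := fun l j => (N.submatrix (Function.update s j l) id).det with hc
  have h1 : ∀ l k, D * N l k = ∑ j, c l j * N (s j) k := fun l k => cramer_rows N s l k
  have h2 : ∀ j, ∑ l, ε l * c l j = 0 := by
    have h3 : (fun j => ∑ l, ε l * c l j) = 0 := by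
      apply Matrix.eq_zero_of_vecMul_eq_zero hs
      funext k
      simp only [Matrix.vecMul, dotProduct, Matrix.submatrix_apply, id, Pi.zero_apply]
      calc ∑ j, (∑ l, ε l * c l j) * N (s j) k = ∑ j, ∑ l, ε l * (c l j * N (s j) k) := by
            refine Finset.sum_congr rfl fun j _ => ?_
            rw [Finset.sum_mul]
            exact Finset.sum_congr rfl fun l _ => by ring
        _ = ∑ l, ε l * (D * N l k) := by
            rw [Finset.sum_comm]
            refine Finset.sum_congr rfl fun l _ => ?_
            rw [h1, Finset.mul_sum]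
        _ = D * ∑ l, ε l * N l k := by
            rw [Finset.mul_sum]
            exact Finset.sum_congr rfl fun l _ => by ring
        _ = 0 := by rw [hε k, mul_zero]
    exact fun j => congrFun h3 j
  have h4 : D * ∑ l with al l = a, ε l * ∑ k, N l k * z k =
      ∑ j, (∑ l with al l = a, ε l * c l j) * ∑ k, N (s j) k * z k := by
    calc D * ∑ l with al l = a, ε l * ∑ k, N l k * z k =
        ∑ l with al l = a, ε l * ∑ k, (D * N l k) * z k := by
          rw [Finset.mul_sum]
          refine Finset.sum_congr rfl fun l _ => ?_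
          rw [mul_left_comm, Finset.mul_sum]
          congr 1
          exact Finset.sum_congr rfl fun k _ => by ring
      _ = ∑ l with al l = a, ∑ j, ε l * c l j * ∑ k, N (s j) k * z k := by
          refine Finset.sum_congr rfl fun l _ => ?_
          rw [Finset.mul_sum]
          simp_rw [h1, Finset.sum_mul, Finset.mul_sum]
          rw [Finset.sum_comm]
          refine Finset.sum_congr rfl fun j _ => Finset.sum_congr rfl fun k _ => by ring
      _ = ∑ j, (∑ l with al l = a, ε l * c l j) * ∑ k, N (s j) k * z k := by
          rw [Finset.sum_comm]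
          exact Finset.sum_congr rfl fun j _ => by rw [Finset.sum_mul]
  have h5 : ∀ j, ∑ l with al l = a, ε l * c l j = 0 := by
    intro j
    by_cases hj : al (s j) = a
    · rw [← h2 j, Finset.sum_filter]
      refine Finset.sum_congr rfl fun l _ => ?_
      split_ifs with hl
      · rfl
      · by_cases h0 : c l j = 0
        · rw [h0, mul_zero]
        · exact absurd ((hex j l h0).trans hj) hl
    · refine Finset.sum_eq_zero fun l hl => ?_
      by_cases h0 : c l j = 0
      · rw [h0, mul_zero]
      · exact absurd ((hex j l h0).symm.trans (Finset.mem_filter.1 hl).2) hj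
  have h6 : ∑ j, (∑ l with al l = a, ε l * c l j) * ∑ k, N (s j) k * z k = 0 :=
    Finset.sum_eq_zero fun j _ => by rw [h5 j, zero_mul]
  rw [h6] at h4
  exact (mul_eq_zero.1 h4).resolve_left hs

end Pool.Agent.TH717.SK
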